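import Pool.Agent.H71.VK.Stmt

/-!
# Board vk_modules: measurability of reflexive transitive closures, of `Valid` and of `Conn`
-/

set_option autoImplicit false

open Set Pool.Agent.TK

namespace Pool.Agent.H94.VK

/-- the reflexive transitive closure of a measurable relation is measurable -/
theorem meas_rtg {Z α : Type*} [MeasurableSpace Z] [Countable α] (R : Z → α → α → Prop)
    (hR : ∀ a b, MeasurableSet {z | R z a b}) (a b : α) :
    MeasurableSet {z | Relation.ReflTransGen (R z) a b} := by
  classical
  let S : ℕ → α → Z → Prop := fun n => Nat.rec (fun b _ => a = b)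
    (fun _ S b z => ∃ c, S c z ∧ R z c b) n
  have hS : ∀ n b, MeasurableSet {z | S n b z} := by
    intro n
    induction n with
    | zero => intro b; exact MeasurableSet.const _
    | succ n ih =>
      intro b
      have : {z | S (n + 1) b z} = ⋃ c, ({z | S n c z} ∩ {z | R z c b}) := by
        ext z
        simp only [mem_ofPred_eq, mem_iUnion, mem_inter_iff]
        exact Iff.rfl
      rw [this]
      exact MeasurableSet.iUnion fun c => (ih c).inter (hR c b)
  have hE : {z | Relation.ReflTransGen (R z) a b} = ⋃ n, {z | S n b z} := by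
    ext z
    simp only [mem_ofPred_eq, mem_iUnion]
    constructor
    · intro h
      induction h with
      | refl => exact ⟨0, rfl⟩
      | tail h1 h2 ih =>
        obtain ⟨n, hn⟩ := ih
        exact ⟨n + 1, _, hn, h2⟩
    · rintro ⟨n, hn⟩
      revert b hn
      induction n with
      | zero =>
        intro b hn
        have h : a = b := hn
        rw [h]
      | succ n ih =>
        intro b hn
        obtain ⟨c, hc, hcb⟩ := hn
        exact (ih c hc).tail hcb
  rw [hE]
  exact MeasurableSet.iUnion fun n => hS n b

variable {C : Type} [MeasurableSpace C]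

theorem meas_adj (u v : ℕ) : Measurable fun M : St C => M.1 u v :=
  (measurable_pi_apply v).comp ((measurable_pi_apply u).comp measurable_fst)

theorem meas_val (l : List ℕ) : Measurable fun M : St C => M.2 l :=
  (measurable_pi_apply l).comp measurable_snd

theorem meas_valid [MeasurableSingletonClass C] (c0 : C) :
    MeasurableSet {M : St C | Valid c0 M} := by
  have h : {M : St C | Valid c0 M} = (⋂ u, ⋂ v, {M : St C | M.1 u v = M.1 v u}) ∩
      (⋂ u, {M : St C | M.1 u u = false}) ∩
      (⋂ l : List ℕ, {M : St C | M.2 l ≠ c0 → ∀ u ∈ l, ∀ v ∈ l, u ≠ v → M.1 u v = true}) := by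
    ext M
    simp only [mem_ofPred_eq, mem_inter_iff, mem_iInter, Valid, and_assoc]
  rw [h]
  refine ((MeasurableSet.iInter fun u => MeasurableSet.iInter fun v =>
    measurableSet_eq_fun (meas_adj u v) (meas_adj v u)).inter
    (MeasurableSet.iInter fun u => ?_)).inter (MeasurableSet.iInter fun l => ?_)
  · exact meas_adj u u (measurableSet_singleton false)
  · have h1 : {M : St C | M.2 l ≠ c0 → ∀ u ∈ l, ∀ v ∈ l, u ≠ v → M.1 u v = true} =
        {M : St C | M.2 l = c0} ∪ ⋂ u, ⋂ v, {M : St C | u ∈ l → v ∈ l → u ≠ v → M.1 u v = true} := by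
      ext M
      simp only [mem_ofPred_eq, mem_union, mem_iInter]
      constructor
      · intro h
        by_cases hc : M.2 l = c0
        · exact Or.inl hc
        · exact Or.inr fun u v hu hv huv => h hc u hu v hv huv
      · rintro (h | h) hc u hu v hv huv
        · exact absurd h hc
        · exact h u v hu hv huv
    rw [h1]
    refine (meas_val l (measurableSet_singleton c0)).union
      (MeasurableSet.iInter fun u => MeasurableSet.iInter fun v => ?_)
    by_cases hp : u ∈ l ∧ v ∈ l ∧ u ≠ v
    · have h2 : {M : St C | u ∈ l → v ∈ l → u ≠ v → M.1 u v = true} =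
          {M : St C | M.1 u v = true} := by
        ext M
        simp only [mem_ofPred_eq]
        exact ⟨fun h => h hp.1 hp.2.1 hp.2.2, fun h _ _ _ => h⟩
      rw [h2]
      exact meas_adj u v (measurableSet_singleton true)
    · have h2 : {M : St C | u ∈ l → v ∈ l → u ≠ v → M.1 u v = true} = univ := by
        ext M
        simp only [mem_ofPred_eq, mem_univ, iff_true]
        exact fun h1 h2 h3 => absurd ⟨h1, h2, h3⟩ hp
      rw [h2]
      exact MeasurableSet.univ

theorem meas_conn (A : Set ℕ) (u v : ℕ) : MeasurableSet {M : St C | Conn M A u v} := by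
  have h : {M : St C | Conn M A u v} = {M : St C | u ∉ A} ∩
      {M : St C | Relation.ReflTransGen (fun x y => M.1 x y = true ∧ y ∉ A) u v} := rfl
  rw [h]
  refine (MeasurableSet.const _).inter (meas_rtg _ (fun x y => ?_) u v)
  exact (meas_adj x y (measurableSet_singleton true)).inter (MeasurableSet.const _)

end Pool.Agent.H94.VK
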