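import Pool.Agent.H71.VK.Stmt

/-!
# Board vk_modules, FLI: isomorphic structures have isomorphic quotient structures
-/

set_option autoImplicit false

open Set Pool.Agent.TK

namespace Pool.Agent.H94.VK

open Pool.Agent.H71.VK

theorem isoH_inv {C : Type} {M N : St C} {h : Equiv.Perm ℕ} (H : IsoH h M N) :
    IsoH h⁻¹ N M := by
  refine ⟨fun u v => ?_, fun l => ?_⟩
  · have h1 := H.1 (h⁻¹ u) (h⁻¹ v)
    rw [← Equiv.Perm.mul_apply, ← Equiv.Perm.mul_apply, mul_inv_cancel] at h1
    exact h1.symm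
  · have h1 := H.2 (l.map (h⁻¹ : Equiv.Perm ℕ))
    rw [List.map_map] at h1
    rw [h1]
    rw [← Equiv.Perm.coe_mul, mul_inv_cancel]
    simp

theorem map_map_inv (h : Equiv.Perm ℕ) (l : List ℕ) :
    (l.map (h⁻¹ : Equiv.Perm ℕ)).map h = l ∧ (l.map h).map (h⁻¹ : Equiv.Perm ℕ) = l := by
  constructor
  · rw [List.map_map, ← Equiv.Perm.coe_mul, mul_inv_cancel]
    simp
  · rw [List.map_map, ← Equiv.Perm.coe_mul, inv_mul_cancel]
    simp

theorem edge_map {C : Type} {M N : St C} {h : ℕ → ℕ} (H : ∀ u v, M.1 u v = N.1 (h u) (h v))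
    (l : List ℕ) : edge N (l.map h) = edge M l := by
  match l with
  | [] => rfl
  | [u] => rfl
  | [u, v] => exact (H u v).symm
  | u :: v :: w :: l => rfl

theorem cval_map {C : Type} {M N : St C} {h : Equiv.Perm ℕ} (H : IsoH h M N) (l : List ℕ) :
    cval N (l.map h) = cval M l := by
  unfold cval
  rw [edge_map H.1, H.2 l]

theorem reindex_map (π : List ℕ) (h : ℕ → ℕ) (l : List ℕ) :
    reindex π (l.map h) = (reindex π l).map h := by
  unfold reindex
  rw [List.map_filterMap]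
  congr 1
  funext i
  rw [List.getElem?_map]

end Pool.Agent.H94.VK

open Pool.Agent.H94.VK

namespace Pool.Agent.H71.VK

theorem pf_FLI {C : Type} {c0 : C} (hRTR : RTR C c0) (hRLB : RLB C) : FLI C c0 := by
  intro T M N ν ν' φ φ' h hM hN F F' H
  choose s hs using F.surj
  choose s' hs' using F'.surj
  have H' := isoH_inv H
  have e1 : ∀ l, ν' ((s (ν l)).map h) = ν' (l.map h) := by
    intro l
    rw [F'.ker]
    exact hRTR T M N h hM hN H _ _ ((F.ker _ _).1 (hs (ν l)))
  have e2 : ∀ l, ν ((s' (ν' l)).map (h⁻¹ : Equiv.Perm ℕ)) = ν (l.map (h⁻¹ : Equiv.Perm ℕ)) := by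
    intro l
    rw [F.ker]
    exact hRTR T N M h⁻¹ hN hM H' _ _ ((F'.ker _ _).1 (hs' (ν' l)))
  let g : Equiv.Perm ℕ :=
    { toFun := fun i => ν' ((s i).map h)
      invFun := fun i => ν ((s' i).map (h⁻¹ : Equiv.Perm ℕ))
      left_inv := by
        intro i
        change ν ((s' (ν' ((s i).map h))).map (h⁻¹ : Equiv.Perm ℕ)) = i
        rw [e2, (map_map_inv h _).2, hs]
      right_inv := by
        intro i
        change ν' ((s (ν ((s' i).map (h⁻¹ : Equiv.Perm ℕ)))).map h) = i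
        rw [e1, (map_map_inv h _).1, hs'] }
  have hg : ∀ l, g (ν l) = ν' (l.map h) := e1
  refine ⟨g, ?_, hg⟩
  intro i j
  obtain ⟨l, rfl⟩ := F.surj i
  rw [hg, F'.val, F.val, cval_map H, List.length_map]
  congr 2
  funext π
  rw [decide_eq_decide, reindex_map, ← hg]
  exact g.injective.eq_iff

end Pool.Agent.H71.VK
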