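import Pool.Agent.H94.VK.Meas

/-!
# Board vk_modules, FLX: the quotient structures exist and depend on the structure in a Borel way
-/

set_option autoImplicit false

open Set Pool.Agent.TK

namespace Pool.Agent.H94.VK

open Pool.Agent.H71.VK

/-- composition with a measurable index -/
theorem meas_idx {Z A : Type*} [MeasurableSpace Z] [MeasurableSpace A] (F : Z → ℕ → A)
    (hF : ∀ k, Measurable fun z => F z k) (K : Z → ℕ) (hK : Measurable K) :
    Measurable fun z => F z (K z) := by
  have h : Measurable (fun p : Z × ℕ => F p.1 p.2) :=
    measurable_from_prod_countable_left fun k => hF k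
  exact h.comp (measurable_id.prodMk hK)

theorem meas_nat {Z : Type*} [MeasurableSpace Z] (K : Z → ℕ)
    (hK : ∀ k, MeasurableSet {z | K z = k}) : Measurable K :=
  measurable_to_countable' fun k => hK k

theorem meas_dec {Z : Type*} [MeasurableSpace Z] (P : Z → Prop) [∀ z, Decidable (P z)]
    (hP : MeasurableSet {z | P z}) : Measurable fun z => decide (P z) := by
  refine measurable_to_countable' fun b => ?_
  cases b with
  | true =>
    have : (fun z => decide (P z)) ⁻¹' {true} = {z | P z} := by
      ext z
      simp
    rw [this]
    exact hP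
  | false =>
    have : (fun z => decide (P z)) ⁻¹' {false} = {z | P z}ᶜ := by
      ext z
      simp
    rw [this]
    exact hP.compl

theorem meas_cval {C : Type} [MeasurableSpace C] (l : List ℕ) :
    Measurable fun M : St C => cval M l := by
  refine (meas_val l).prodMk ?_
  match l with
  | [] => exact measurable_const
  | [u] => exact measurable_const
  | [u, v] => exact meas_adj u v
  | u :: v :: w :: l => exact measurable_const

theorem meas_count {Z : Type*} [MeasurableSpace Z] (P : Z → ℕ → Prop)
    [∀ z, DecidablePred (P z)] (hP : ∀ k, MeasurableSet {z | P z k}) (k : ℕ) :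
    Measurable fun z => Nat.count (P z) k := by
  induction k with
  | zero => simp only [Nat.count_zero]; exact measurable_const
  | succ k ih =>
    simp only [Nat.count_succ]
    exact ih.add (Measurable.ite (hP k) measurable_const measurable_const)

end Pool.Agent.H94.VK

open Pool.Agent.H94.VK

namespace Pool.Agent.H71.VK

theorem pf_FLX {C : Type} [MeasurableSpace C] (hRLB : RLB C) : FLX C := by
  classical
  intro T Z _ M hM hR
  have hRe : ∀ z, Equivalence (Rel T (M z)) := fun z => (hRLB T (M z)).1
  have hRl : ∀ z l m, Rel T (M z) l m → cval (M z) l = cval (M z) m ∧ l.length = m.length ∧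
      ∀ π, Rel T (M z) (reindex π l) (reindex π m) := fun z => (hRLB T (M z)).2.1
  let e : ℕ ≃ List ℕ := (Denumerable.eqv (List ℕ)).symm
  -- the least index of a representative
  have hex : ∀ z l, ∃ i, Rel T (M z) (e i) l := fun z l => ⟨e.symm l, by
    rw [Equiv.apply_symm_apply]
    exact (hRe z).refl l⟩
  let idx : Z → List ℕ → ℕ := fun z l => Nat.find (hex z l)
  have hidx : ∀ z l, Rel T (M z) (e (idx z l)) l := fun z l => Nat.find_spec (hex z l)
  have hmin : ∀ z l i, Rel T (M z) (e i) l → idx z l ≤ i := fun z l i h => Nat.find_min' (hex z l) h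
  have hidxeq : ∀ z l m, Rel T (M z) l m ↔ idx z l = idx z m := by
    intro z l m
    constructor
    · intro h
      exact le_antisymm (hmin z l _ ((hRe z).trans (hidx z m) ((hRe z).symm h)))
        (hmin z m _ ((hRe z).trans (hidx z l) h))
    · intro h
      have h1 := hidx z l
      rw [h] at h1
      exact (hRe z).trans ((hRe z).symm h1) (hidx z m)
  -- leaders
  let ldr : Z → ℕ → Prop := fun z j => ∀ i < j, ¬ Rel T (M z) (e i) (e j)
  have hldr : ∀ z j, ldr z j ↔ idx z (e j) = j := by
    intro z j
    constructor
    · intro h
      refine le_antisymm (hmin z _ j ((hRe z).refl _)) ?_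
      by_contra hcon
      push Not at hcon
      exact h _ hcon (hidx z (e j))
    · intro h i hi hr
      have := hmin z (e j) i hr
      omega
  have hldri : ∀ z l, ldr z (idx z l) := by
    intro z l
    rw [hldr]
    exact (hidxeq z _ _).1 (hidx z l)
  have hinf : ∀ z, (Set.ofPred (ldr z)).Infinite := by
    intro z
    have hinj : Function.Injective fun n : ℕ => idx z (List.replicate n 0) := by
      intro n m h
      have h1 := (hRl z _ _ ((hidxeq z _ _).2 h)).2.1
      rwa [List.length_replicate, List.length_replicate] at h1
    exact (Set.infinite_range_of_injective hinj).mono (by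
      rintro _ ⟨n, rfl⟩
      exact hldri z _)
  let ν : Z → List ℕ → ℕ := fun z l => Nat.count (ldr z) (idx z l)
  let K : Z → ℕ → ℕ := fun z i => Nat.nth (ldr z) i
  have hK1 : ∀ z i, ldr z (K z i) := fun z i => Nat.nth_mem_of_infinite (hinf z) i
  have hK2 : ∀ z i, ν z (e (K z i)) = i := by
    intro z i
    change Nat.count (ldr z) (idx z (e (K z i))) = i
    rw [(hldr z _).1 (hK1 z i)]
    exact Nat.count_nth_of_infinite (hinf z) i
  have hker : ∀ z l m, ν z l = ν z m ↔ Rel T (M z) l m := by
    intro z l m
    rw [hidxeq]
    constructor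
    · intro h
      exact Nat.count_injective (hldri z l) (hldri z m) h
    · intro h
      change Nat.count (ldr z) (idx z l) = Nat.count (ldr z) (idx z m)
      rw [h]
  -- measurability
  have mldr : ∀ j, MeasurableSet {z | ldr z j} := by
    intro j
    have : {z | ldr z j} = ⋂ i, {z | i < j → ¬ Rel T (M z) (e i) (e j)} := by
      ext z
      simp only [mem_ofPred_eq, mem_iInter]
      exact Iff.rfl
    rw [this]
    refine MeasurableSet.iInter fun i => ?_
    by_cases hi : i < j
    · have h2 : {z | i < j → ¬ Rel T (M z) (e i) (e j)} = {z | Rel T (M z) (e i) (e j)}ᶜ := by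
        ext z
        simp only [mem_ofPred_eq, mem_compl_iff]
        exact ⟨fun h => h hi, fun h _ => h⟩
      rw [h2]
      exact (hR _ _).compl
    · have h2 : {z | i < j → ¬ Rel T (M z) (e i) (e j)} = univ := by
        ext z
        simp only [mem_ofPred_eq, mem_univ, iff_true]
        exact fun h => absurd h hi
      rw [h2]
      exact MeasurableSet.univ
  have mcount : ∀ k, Measurable fun z => Nat.count (ldr z) k := fun k => meas_count ldr mldr k
  have midx : ∀ l, Measurable fun z => idx z l := by
    intro l
    refine meas_nat _ fun k => ?_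
    have h1 : {z | idx z l = k} = {z | ldr z k} ∩ {z | Rel T (M z) (e k) l} := by
      ext z
      simp only [mem_ofPred_eq, mem_inter_iff]
      constructor
      · rintro rfl
        exact ⟨hldri z l, hidx z l⟩
      · rintro ⟨h1, h2⟩
        rw [← (hidxeq z _ _).1 h2]
        exact (hldr z k).1 h1
    rw [h1]
    exact (mldr k).inter (hR _ _)
  have mν : ∀ l, Measurable fun z => ν z l := fun l =>
    meas_idx (fun z k => Nat.count (ldr z) k) mcount (fun z => idx z l) (midx l)
  have mK : ∀ i, Measurable fun z => K z i := by
    intro i
    refine meas_nat _ fun k => ?_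
    have h1 : {z | K z i = k} = {z | ldr z k} ∩ {z | Nat.count (ldr z) k = i} := by
      ext z
      simp only [mem_ofPred_eq, mem_inter_iff]
      constructor
      · rintro rfl
        exact ⟨hK1 z i, Nat.count_nth_of_infinite (hinf z) i⟩
      · rintro ⟨h1, h2⟩
        change Nat.nth (ldr z) i = k
        rw [← h2]
        exact Nat.nth_count h1
    rw [h1]
    exact (mldr k).inter (mcount k (measurableSet_singleton i))
  refine ⟨ν, fun z i j => (cval (M z) (e (K z i)), (e (K z i)).length,
    fun π => decide (ν z (reindex π (e (K z i))) = j)), ?_, fun z => ⟨?_, hker z, ?_⟩⟩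
  · refine measurable_pi_iff.2 fun i => measurable_pi_iff.2 fun j => ?_
    refine Measurable.prodMk ?_ (Measurable.prodMk ?_ (measurable_pi_iff.2 fun π => ?_))
    · exact meas_idx (fun z k => cval (M z) (e k)) (fun k => (meas_cval (e k)).comp hM)
        (fun z => K z i) (mK i)
    · exact meas_idx (fun _ k => (e k).length) (fun k => measurable_const) (fun z => K z i) (mK i)
    · refine meas_idx (fun z k => decide (ν z (reindex π (e k)) = j)) (fun k => ?_)
        (fun z => K z i) (mK i)
      exact meas_dec _ (mν _ (measurableSet_singleton j))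
  · intro i
    exact ⟨e (K z i), hK2 z i⟩
  · intro l j
    have h1 : Rel T (M z) (e (K z (ν z l))) l := by
      rw [← hker]
      exact hK2 z (ν z l)
    obtain ⟨h2, h3, h4⟩ := hRl z _ _ h1
    change (cval (M z) (e (K z (ν z l))), (e (K z (ν z l))).length,
      fun π => decide (ν z (reindex π (e (K z (ν z l)))) = j)) = _
    rw [h2, h3]
    congr 2
    funext π
    rw [decide_eq_decide, (hker z _ _).2 (h4 π)]

end Pool.Agent.H71.VK
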