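import Pool.Agent.H94.VK.Meas

/-!
# Board vk_modules, MVM: swap moves are Borel
-/

set_option autoImplicit false

open Set Pool.Agent.TK

namespace Pool.Agent.H94.VK

open Pool.Agent.H71.VK

variable {C : Type}

/-- the data of a swap move -/
abbrev Dat := List ℕ × ℕ × ℕ × List ℕ × List ℕ × List ℕ

/-- the condition which describes a swap move with type `t` -/
def Cond (t : Fl C) (d : Dat) (l m : List ℕ) (M : St C) : Prop :=
  d.2.1 ∉ ms d.1 ∧ d.2.2.1 ∉ ms d.1 ∧ d.2.2.1 ∉ cp M (ms d.1) d.2.1 ∧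
  l.length = m.length ∧
  (∀ z ∈ d.2.2.2.1, z ∈ cp M (ms d.1) d.2.1) ∧ (∀ z ∈ d.2.2.2.2.1, z ∈ cp M (ms d.1) d.2.2.1) ∧
  d.2.2.2.1.length = d.2.2.2.2.1.length ∧ d.2.2.2.1.length = d.2.2.2.2.2.length ∧
  FI M (d.1 ++ d.2.2.2.1) (cp M (ms d.1) d.2.1) t.1 (t.2.1 ++ d.2.2.2.2.2) t.set ∧
  FI M (d.1 ++ d.2.2.2.2.1) (cp M (ms d.1) d.2.2.1) t.1 (t.2.1 ++ d.2.2.2.2.2) t.set ∧
  ∀ p ∈ l.zip m, p ∈ d.2.2.2.1.zip d.2.2.2.2.1 ∨ (p.2, p.1) ∈ d.2.2.2.1.zip d.2.2.2.2.1 ∨
    (p.1 = p.2 ∧ p.1 ∉ cp M (ms d.1) d.2.1 ∧ p.1 ∉ cp M (ms d.1) d.2.2.1)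

theorem zip_map_eq (x : List ℕ) (g : ℕ → ℕ) : x.map (fun z => (z, g z)) = x.zip (x.map g) := by
  induction x with
  | nil => rfl
  | cons b x ih => simp only [List.map_cons, List.zip_cons_cons, ih]

/-- marks can be added -/
theorem fih_add {M M' : St C} {a a' : List ℕ} {D D' : Set ℕ} {h : ℕ → ℕ}
    (H : FIh h M a D M' a' D') (u : List ℕ) (hu : ∀ z ∈ u, z ∈ D) :
    FIh h M (a ++ u) D M' (a' ++ u.map h) D' := by
  obtain ⟨H1, H2, H3⟩ := H
  refine ⟨by simp [H1], H2, fun x hx => ?_⟩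
  rw [List.zip_append H1, ← zip_map_eq, List.append_assoc, ← List.map_append]
  exact H3 (u ++ x) (by
    intro z hz
    rcases List.mem_append.1 hz with h | h
    · exact hu z h
    · exact hx z h)

/-- marks can be removed; they are mapped to each other -/
theorem fih_rem {M M' : St C} {a a' u u' : List ℕ} {D D' : Set ℕ} {h : ℕ → ℕ}
    (hl : a.length = a'.length) (hu : ∀ z ∈ u, z ∈ D)
    (H : FIh h M (a ++ u) D M' (a' ++ u') D') :
    FIh h M a D M' a' D' ∧ ∀ p ∈ u.zip u', h p.1 = p.2 := by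
  obtain ⟨H1, H2, H3⟩ := H
  refine ⟨⟨hl, H2, fun x hx => ?_⟩, ?_⟩
  · refine (H3 x hx).mono ?_
    intro z hz
    rw [List.zip_append hl]
    simp only [List.mem_append] at hz ⊢
    tauto
  · intro p hp
    have hp1 : p.1 ∈ D := hu _ (List.of_mem_zip hp).1
    have h1 := (H3 [p.1] (by simpa using hp1)).1 p (by
      rw [List.zip_append hl]
      simp only [List.mem_append]
      exact Or.inl (Or.inr hp)) (p.1, h p.1) (by simp)
    exact (h1.1 rfl).symm

/-- an automorphism is an isomorphism of flaps -/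
theorem isoH_fih {M : St C} {f : Equiv.Perm ℕ} (H : IsoH f M M) {s : List ℕ} {D D' : Set ℕ}
    (hs : ∀ z ∈ s, f z = z) (hD : f '' D = D') : FIh f M s D M s D' := by
  refine ⟨rfl, ⟨?_, f.injective.injOn, ?_⟩, fun x _ => ?_⟩
  · intro z hz
    rw [← hD]
    exact mem_image_of_mem f hz
  · rw [← hD]
    exact fun z hz => hz
  · have hall : ∀ z ∈ s.zip s ++ x.map (fun z => (z, f z)), z.2 = f z.1 := by
      intro z hz
      rcases List.mem_append.1 hz with h | h
      · rw [← dg_eq_zip] at h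
        obtain ⟨h1, h2⟩ := mem_dg.1 h
        rw [hs _ h2, h1]
      · obtain ⟨w, -, rfl⟩ := List.mem_map.1 h
        rfl
    refine ⟨?_, ?_, ?_⟩
    · intro z hz w hw
      rw [hall z hz, hall w hw, f.injective.eq_iff]
    · intro z hz w hw
      rw [hall z hz, hall w hw]
      exact H.1 z.1 w.1
    · intro q hq
      rw [H.2 (q.map Prod.fst), List.map_map]
      exact congrArg M.2 (List.map_congr_left fun z hz => (hall z (hq z hz)).symm)

/-- the condition is necessary -/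
theorem cond_of_mv {c0 : C} {T : Set (Fl C)} {M : St C} (hM : Valid c0 M) {l m : List ℕ}
    (h : Mv T M l m) : ∃ t ∈ T, ∃ d : Dat, Cond t d l m M := by
  classical
  obtain ⟨f, ⟨hf, hff, s, D, D', hD, hD', hne, ⟨t, ht, h0, H0⟩, hfD, hfix⟩, rfl⟩ := h
  obtain ⟨v, hv, hvD⟩ := hD
  obtain ⟨v', hv', hvD'⟩ := hD'
  have hDc : IsCp M (ms s) D := ⟨v, hv, hvD⟩
  have hDc' : IsCp M (ms s) D' := ⟨v', hv', hvD'⟩
  have hdis : ∀ x ∈ D, x ∉ D' := fun x hx hx' => hne (hDc.eq_of_inter hM hDc' hx hx')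
  have hfs : ∀ z ∈ s, f z = z := by
    intro z hz
    exact hfix z (fun h => Set.disjoint_left.1 hDc.disj h hz)
      (fun h => Set.disjoint_left.1 hDc'.disj h hz)
  have hback : ∀ a ∈ D', f a ∈ D := by
    intro a ha
    rw [← hfD] at ha
    obtain ⟨b, hb, rfl⟩ := ha
    rw [hff]
    exact hb
  have hforw : ∀ a ∈ D, f a ∈ D' := fun a ha => by
    rw [← hfD]
    exact mem_image_of_mem f ha
  set u : List ℕ := (l ++ l.map f).filter (fun z => decide (z ∈ D)) with hu
  have huD : ∀ z ∈ u, z ∈ D := by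
    intro z hz
    rw [hu, List.mem_filter] at hz
    simpa using hz.2
  have huD' : ∀ z ∈ u.map f, z ∈ D' := by
    intro z hz
    obtain ⟨w, hw, rfl⟩ := List.mem_map.1 hz
    exact hforw w (huD w hw)
  have hfD2 : f '' D' = D := by
    ext x
    constructor
    · rintro ⟨y, hy, rfl⟩
      exact hback y hy
    · intro hx
      exact ⟨f x, hforw x hx, hff x⟩
  have F1 : FI M (s ++ u) D t.1 (t.2.1 ++ u.map h0) t.set := ⟨h0, fih_add H0 u huD⟩
  have F2 : FI M (s ++ u.map f) D' M (s ++ u) D := by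
    have h1 := fih_add (isoH_fih hf hfs hfD2) (u.map f) huD'
    have h2 : (u.map f).map f = u := by
      rw [List.map_map]
      conv_rhs => rw [← List.map_id u]
      exact List.map_congr_left fun z _ => hff z
    rw [h2] at h1
    exact ⟨_, h1⟩
  have F3 := F2.trans F1
  refine ⟨t, ht, (s, v, v', u, u.map f, u.map h0), hv, hv', ?_, ?_, ?_, ?_, ?_, ?_, ?_, ?_, ?_⟩
  · change v' ∉ cp M (ms s) v
    rw [← hvD]
    intro h
    exact hdis v' h (by rw [hvD']; exact self_mem_cp hv')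
  · exact (List.length_map _).symm
  · change ∀ z ∈ u, z ∈ cp M (ms s) v
    rw [← hvD]
    exact huD
  · change ∀ z ∈ u.map f, z ∈ cp M (ms s) v'
    rw [← hvD']
    exact huD'
  · exact (List.length_map _).symm
  · exact (List.length_map _).symm
  · change FI M (s ++ u) (cp M (ms s) v) t.1 (t.2.1 ++ u.map h0) t.set
    rw [← hvD]
    exact F1
  · change FI M (s ++ u.map f) (cp M (ms s) v') t.1 (t.2.1 ++ u.map h0) t.set
    rw [← hvD']
    exact F3
  · intro p hp
    change p ∈ u.zip (u.map f) ∨ (p.2, p.1) ∈ u.zip (u.map f) ∨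
      (p.1 = p.2 ∧ p.1 ∉ cp M (ms s) v ∧ p.1 ∉ cp M (ms s) v')
    rw [← hvD, ← hvD', ← zip_map_eq]
    rw [← zip_map_eq] at hp
    obtain ⟨a, ha, rfl⟩ := List.mem_map.1 hp
    simp only
    have hfa : f a ∈ l ++ l.map f := List.mem_append.2 (Or.inr (List.mem_map_of_mem ha))
    have haa : a ∈ l ++ l.map f := List.mem_append.2 (Or.inl ha)
    by_cases h1 : a ∈ D
    · refine Or.inl (List.mem_map.2 ⟨a, ?_, rfl⟩)
      rw [hu, List.mem_filter]
      exact ⟨haa, by simpa using h1⟩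
    · by_cases h2 : a ∈ D'
      · refine Or.inr (Or.inl (List.mem_map.2 ⟨f a, ?_, ?_⟩))
        · rw [hu, List.mem_filter]
          exact ⟨hfa, by simpa using hback a h2⟩
        · rw [hff]
      · exact Or.inr (Or.inr ⟨(hfix a h1 h2).symm, h1, h2⟩)

/-- the condition is sufficient -/
theorem mv_of_cond {c0 : C} (hSWG : SWG C c0) {T : Set (Fl C)} {M : St C} (hM : Valid c0 M)
    {l m : List ℕ} {t : Fl C} (ht : t ∈ T) {d : Dat} (h : Cond t d l m M) : Mv T M l m := by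
  obtain ⟨s, v, v', u, u', w⟩ := d
  obtain ⟨hv, hv', hne, hlm, hu, hu', huu, huw, F1, F2, hp⟩ := h
  simp only at hv hv' hne hu hu' huu huw F1 F2 hp
  have hst : s.length = t.2.1.length := by
    have := F1.length
    rw [List.length_append, List.length_append] at this
    omega
  obtain ⟨g, F3⟩ := F1.trans F2.symm
  obtain ⟨F4, hg⟩ := fih_rem rfl hu F3
  have hD : IsCp M (ms s) (cp M (ms s) v) := isCp_cp hv
  have hD' : IsCp M (ms s) (cp M (ms s) v') := isCp_cp hv'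
  have hne' : cp M (ms s) v ≠ cp M (ms s) v' := by
    intro h
    apply hne
    rw [h]
    exact self_mem_cp hv'
  obtain ⟨f, hf, hff, hfg, hfD, hfix⟩ := hSWG M hM s _ _ g hD hD' hne' F4
  obtain ⟨h1, H1⟩ := F1
  refine ⟨f, ⟨hf, hff, s, _, _, hD, hD', hne', ⟨t, ht, h1, (fih_rem hst hu H1).1⟩, hfD, hfix⟩, ?_⟩
  have key : ∀ p ∈ l.zip m, f p.1 = p.2 := by
    intro p hpm
    rcases hp p hpm with h | h | ⟨h2, h3, h4⟩
    · rw [hfg _ (hu _ (List.of_mem_zip h).1)]
      exact hg p h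
    · have h5 := hg _ h
      simp only at h5
      rw [← hfg _ (hu _ (List.of_mem_zip h).1)] at h5
      rw [← h5, hff]
    · rw [hfix _ h3 h4]
      exact h2
  clear hp
  revert m
  induction l with
  | nil =>
    intro m hlm _
    cases m with
    | nil => rfl
    | cons b m => simp at hlm
  | cons a l ih =>
    intro m hlm key
    cases m with
    | nil => simp at hlm
    | cons b m =>
      rw [List.map_cons]
      congr 1
      · exact key (a, b) (by simp)
      · exact ih (by simpa using hlm) fun p hp => key p (by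
          rw [List.zip_cons_cons]
          exact List.mem_cons_of_mem _ hp)

theorem meas_cond [MeasurableSpace C] [StandardBorelSpace C] (hFIM : FIM C) (t : Fl C)
    (d : Dat) (l m : List ℕ) : MeasurableSet {M : St C | Cond t d l m M} := by
  have hmem : ∀ (A : Set ℕ) (v z : ℕ), MeasurableSet {M : St C | z ∈ cp M A v} := fun A v z =>
    meas_conn A v z
  have hall : ∀ (u : List ℕ) (A : Set ℕ) (v : ℕ),
      MeasurableSet {M : St C | ∀ z ∈ u, z ∈ cp M A v} := by
    intro u A v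
    have : {M : St C | ∀ z ∈ u, z ∈ cp M A v} = ⋂ z ∈ ms u, {M : St C | z ∈ cp M A v} := by
      ext M
      simp only [mem_ofPred_eq, mem_iInter, mem_ms]
    rw [this]
    exact MeasurableSet.biInter (to_countable _) fun z _ => hmem A v z
  unfold Cond
  refine (MeasurableSet.const _).inter ((MeasurableSet.const _).inter ((hmem _ _ _).compl.inter
    ((MeasurableSet.const _).inter ((hall _ _ _).inter ((hall _ _ _).inter
    ((MeasurableSet.const _).inter ((MeasurableSet.const _).inter ((hFIM _ _ _ _ _ _).inter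
    ((hFIM _ _ _ _ _ _).inter ?_)))))))))
  have : {M : St C | ∀ p ∈ l.zip m, p ∈ d.2.2.2.1.zip d.2.2.2.2.1 ∨
      (p.2, p.1) ∈ d.2.2.2.1.zip d.2.2.2.2.1 ∨
      (p.1 = p.2 ∧ p.1 ∉ cp M (ms d.1) d.2.1 ∧ p.1 ∉ cp M (ms d.1) d.2.2.1)} =
      ⋂ p ∈ {p | p ∈ l.zip m}, {M : St C | p ∈ d.2.2.2.1.zip d.2.2.2.2.1 ∨
      (p.2, p.1) ∈ d.2.2.2.1.zip d.2.2.2.2.1 ∨
      (p.1 = p.2 ∧ p.1 ∉ cp M (ms d.1) d.2.1 ∧ p.1 ∉ cp M (ms d.1) d.2.2.1)} := by
    ext M
    simp only [mem_ofPred_eq, mem_iInter]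
  change MeasurableSet {M : St C | ∀ p ∈ l.zip m, p ∈ d.2.2.2.1.zip d.2.2.2.2.1 ∨
      (p.2, p.1) ∈ d.2.2.2.1.zip d.2.2.2.2.1 ∨
      (p.1 = p.2 ∧ p.1 ∉ cp M (ms d.1) d.2.1 ∧ p.1 ∉ cp M (ms d.1) d.2.2.1)}
  rw [this]
  refine MeasurableSet.biInter (to_countable _) fun p _ => ?_
  exact (MeasurableSet.const _).union ((MeasurableSet.const _).union
    ((MeasurableSet.const _).inter ((hmem _ _ _).compl.inter (hmem _ _ _).compl)))

end Pool.Agent.H94.VK

open Pool.Agent.H94.VK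

namespace Pool.Agent.H71.VK

theorem pf_MVM {C : Type} {c0 : C} [MeasurableSpace C] [StandardBorelSpace C]
    (hSWG : SWG C c0) (hFIM : FIM C) : MVM C c0 := by
  intro T hT l m
  have h : {M : St C | Valid c0 M ∧ Mv T M l m} = {M : St C | Valid c0 M} ∩
      ⋃ t ∈ T, ⋃ d : Dat, {M : St C | Cond t d l m M} := by
    ext M
    simp only [mem_inter_iff, mem_ofPred_eq, mem_iUnion, exists_prop]
    constructor
    · rintro ⟨h1, h2⟩
      exact ⟨h1, cond_of_mv h1 h2⟩
    · rintro ⟨h1, t, ht, d, h2⟩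
      exact ⟨h1, mv_of_cond hSWG h1 ht h2⟩
  rw [h]
  exact (meas_valid c0).inter (MeasurableSet.biUnion hT fun t _ =>
    MeasurableSet.iUnion fun d => meas_cond hFIM t d l m)

end Pool.Agent.H71.VK
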