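import Pool.Agent.H94.VK.Meas

/-!
# Board vk_modules, RLM: the relation `Rel` is Borel
-/

set_option autoImplicit false

open Set Pool.Agent.TK Pool.Agent.H94.VK

namespace Pool.Agent.H71.VK

theorem pf_RLM {C : Type} {c0 : C} [MeasurableSpace C] [StandardBorelSpace C] (hRLB : RLB C)
    (hMVM : MVM C c0) : RLM C c0 := by
  intro T hT l m
  have h : {M : St C | Valid c0 M ∧ Rel T M l m} = {M : St C | Valid c0 M} ∩
      {M : St C | Relation.ReflTransGen (fun l m => Valid c0 M ∧ Mv T M l m) l m} := by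
    ext M
    simp only [mem_inter_iff, mem_ofPred_eq]
    constructor
    · rintro ⟨h1, h2⟩
      refine ⟨h1, ?_⟩
      rw [(hRLB T M).2.2 l m] at h2
      exact Relation.ReflTransGen.mono (r := Mv T M) (p := fun l m => Valid c0 M ∧ Mv T M l m)
        (fun _ _ hs => ⟨h1, hs⟩) _ _ h2
    · rintro ⟨h1, h2⟩
      refine ⟨h1, ?_⟩
      rw [(hRLB T M).2.2 l m]
      exact Relation.ReflTransGen.mono (r := fun l m => Valid c0 M ∧ Mv T M l m) (p := Mv T M)
        (fun _ _ hs => hs.2) _ _ h2
  rw [h]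
  exact (meas_valid c0).inter (meas_rtg _ (fun l m => hMVM T hT l m) l m)

end Pool.Agent.H71.VK
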